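import Pool.Agent.R409.RG.Art
import Pool.Agent.R409.RJ.Alg2
import Pool.Agent.R409.RJ.Der

/-!
# The equivariant leading term at `s = 1 - k` as a limit in the group ring

Let `L/K` be an abelian extension of number fields with group `G`, `S` a finite set of primes of `K`,
`s₀` a complex number (for Q1: `s₀ = 1 - k`). For `X > 0` let `N(X) = ∑_σ N_σ(X) σ⁻¹` in `ℂ[G]` with
the finite sums

`N_σ(X) = ∑ κ_γ(j log q_v / X) q_v^{-j s₀} / j`, `κ_γ(u) = e^{iγu} / Γ(1 + u)`,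

over the primes `v ∉ S` and the `j ≥ 1` with `q_v^j ≤ exp (exp (κ X))` and `Frob_v^j = σ`. Let `R` and
`L*` in `ℂ[G]` be the elements such that `χ(R)` is the order and `χ(L*)` the leading coefficient of
`L_S(χ⁻¹, s)` at `s₀`. We prove that there is `ℓ ∈ ℂ[G]` with `exp ℓ = L*` and

`N(X) = ℓ - (log X - Λ_γ) R + O(1/X)`, `L* = exp (N(X) + (log X - Λ_γ) R) + O(1/X)`.

So Q1, which says that the regulator `A ∈ ℝ[G]` with respect to the rational structures is in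
`L* ℚ[G]`, says that the coefficients of `A exp (-N(X) - (log X - Λ_γ) R)` tend to rational numbers.
-/

set_option autoImplicit false

namespace Pool.Agent.Results.MP_a93ca1_nt.LeadingTermLimit

open NumberField IsDedekindDomain Filter Topology Asymptotics

section defs

variable {K : Type} [Field K] [NumberField K] {G : Type} [CommGroup G]

/-- `L_S(χ, s) = ∏_{v ∉ S} (1 - χ(frob v) q_v^{-s})⁻¹`. -/
noncomputable def LFun (S : Finset (HeightOneSpectrum (𝓞 K))) (frob : HeightOneSpectrum (𝓞 K) → G)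
    (χ : G →* ℂˣ) (s : ℂ) : ℂ :=
  ∏' v : {v : HeightOneSpectrum (𝓞 K) // v ∉ S},
    (1 - ((χ (frob v.1) : ℂˣ) : ℂ) * (Ideal.absNorm v.1.asIdeal : ℂ) ^ (-s))⁻¹

/-- `F` is meromorphic at the points `s₀ + x` with `0 ≤ x ≤ 1 - Re s₀`, and it is `L_S(χ, s)` for
`Re s > 1`. -/
def IsContinuation (S : Finset (HeightOneSpectrum (𝓞 K))) (frob : HeightOneSpectrum (𝓞 K) → G)
    (s₀ : ℂ) (χ : G →* ℂˣ) (F : ℂ → ℂ) : Prop :=
  (∀ x : ℝ, 0 ≤ x → x ≤ 1 - s₀.re → MeromorphicAt F (s₀ + x)) ∧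
    ∀ s : ℂ, 1 < s.re → F s = LFun S frob χ s

/-- The weight `κ_γ(u) = e^{iγu} / Γ(1 + u)`. -/
noncomputable def weight (γ u : ℝ) : ℂ :=
  Complex.exp (Complex.I * (γ * u)) / Complex.Gamma (1 + u)

/-- `Λ_γ = ∫_0^∞ (e^{-t} - e^{iγt} / Γ(1 + t)) dt / t`. -/
noncomputable def lam (γ : ℝ) : ℂ :=
  ∫ t in Set.Ioi (0 : ℝ), (Real.exp (-t) - weight γ t) / t

/-- `N_σ(X) = ∑ κ_γ(j log q_v / X) q_v^{-j s₀} / j`, the sum over the `v ∉ S` and `j ≥ 1` with
`q_v^j ≤ exp (exp (κ X))` and `frob(v)^j = σ`. -/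
noncomputable def count (S : Finset (HeightOneSpectrum (𝓞 K)))
    (frob : HeightOneSpectrum (𝓞 K) → G) (s₀ : ℂ) (γ κ X : ℝ) (σ : G) : ℂ :=
  ∑ᶠ x ∈ {x : {v : HeightOneSpectrum (𝓞 K) // v ∉ S} × ℕ | 1 ≤ x.2 ∧
      (Ideal.absNorm x.1.1.asIdeal : ℝ) ^ x.2 ≤ Real.exp (Real.exp (κ * X)) ∧
      frob x.1.1 ^ x.2 = σ},
    weight γ (x.2 * Real.log (Ideal.absNorm x.1.1.asIdeal) / X) *
      ((Ideal.absNorm x.1.1.asIdeal : ℂ) ^ (-s₀)) ^ x.2 / x.2

variable [Finite G]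

/-- The element `∑_g f(g) g` of the group ring. -/
noncomputable def elt (f : G → ℂ) : MonoidAlgebra ℂ G :=
  MonoidAlgebra.ofCoeff (Finsupp.equivFunOnFinite.symm f)

/-- `N(X) = ∑_σ N_σ(X) σ⁻¹` in `ℂ[G]`. -/
noncomputable def nEl (S : Finset (HeightOneSpectrum (𝓞 K)))
    (frob : HeightOneSpectrum (𝓞 K) → G) (s₀ : ℂ) (γ κ X : ℝ) : MonoidAlgebra ℂ G :=
  elt fun σ => count S frob s₀ γ κ X σ⁻¹

/-- The exponential of `ℂ[G]`: its coefficients are those of `∑_n x^n / n!`. -/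
noncomputable def gexp (x : MonoidAlgebra ℂ G) : MonoidAlgebra ℂ G :=
  elt fun g => ∑' n : ℕ, (x ^ n).coeff g / (n.factorial : ℂ)

/-- The value of `χ` on `ℂ[G]`. -/
noncomputable def ev (χ : G →* ℂˣ) : MonoidAlgebra ℂ G →ₐ[ℂ] ℂ :=
  MonoidAlgebra.lift ℂ ℂ G ((Units.coeHom ℂ).comp χ)

/-- The element has rational coefficients: it is in `ℚ[G]`. -/
def IsRational (q : MonoidAlgebra ℂ G) : Prop :=
  ∀ g, ∃ x : ℚ, q.coeff g = x

end defs

section bridge

open Pool.Agent.R409.RC Pool.Agent.R409.RF Pool.Agent.R409.RG Pool.Agent.W189.LC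

variable {K : Type} [Field K] [NumberField K] {G : Type} [CommGroup G]
  {S : Finset (HeightOneSpectrum (𝓞 K))} {frob : HeightOneSpectrum (𝓞 K) → G} {s₀ : ℂ}

theorem weight_eq {γ u : ℝ} : weight γ u = Pool.Agent.W187.S2.kk γ u := by
  unfold weight Pool.Agent.W187.S2.kk Pool.Agent.W189.ML.om
  have h1 : Complex.Gamma (1 + u) = ((Real.Gamma (1 + u) : ℝ) : ℂ) := by
    rw [← Complex.Gamma_ofReal]
    push_cast
    rfl
  rw [h1, div_eq_mul_inv]
  push_cast
  congr 2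
  ring

theorem lam_eq (γ : ℝ) : lam γ = Pool.Agent.W187.UR.Lam γ := by
  unfold lam Pool.Agent.W187.UR.Lam
  refine MeasureTheory.integral_congr_ae (Filter.Eventually.of_forall fun t => ?_)
  simp only
  rw [weight_eq]
  unfold Pool.Agent.W187.S2.kk Pool.Agent.W189.ML.om
  push_cast
  rfl

/-- the norms -/
noncomputable def qS (S : Finset (HeightOneSpectrum (𝓞 K)))
    (v : {v : HeightOneSpectrum (𝓞 K) // v ∉ S}) : ℝ := qv v.1

theorem qS_sum {σ : ℝ} (hσ : 1 < σ) : Summable fun v => qS S v ^ (-σ) :=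
  (Pool.Agent.H921R2.TatePole.nm_summable (K := K) hσ).subtype _

/-- the set of the pairs in the sums -/
def PS (S : Finset (HeightOneSpectrum (𝓞 K))) (θ T : ℝ) :
    Set ({v : HeightOneSpectrum (𝓞 K) // v ∉ S} × ℕ) :=
  {x | 1 ≤ x.2 ∧ qS S x.1 ^ x.2 ≤ Real.exp (Real.exp (θ * T))}

theorem PS_finite (θ T : ℝ) : (PS S θ T).Finite := by
  have E : XD (0 : ℝ) (qS S) (fun (_ : {v : HeightOneSpectrum (𝓞 K) // v ∉ S}) (_ : Fin 0) =>
      (0 : ℂ)) :=
    { two_le := fun v => two_le_qv v.1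
      sum := fun σ hσ => qS_sum hσ
      norm_le := fun v j => j.elim0 }
  have h1 := E.finite_fr (Real.exp (θ * T))
  refine (h1.image fun x => (x.1, x.2 + 1)).subset ?_
  rintro ⟨v, k⟩ ⟨h2, h3⟩
  refine ⟨(v, k - 1), ?_, by
    simp only [Prod.mk.injEq, true_and]
    have : 1 ≤ k := h2
    omega⟩
  show Pool.Agent.W189.LC.fr (qS S) (v, k - 1) ≤ _
  unfold Pool.Agent.W189.LC.fr
  simp only
  have h4 : ((k - 1 : ℕ) : ℝ) + 1 = k := by
    have : 1 ≤ k := h2
    rw [Nat.cast_sub this]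
    push_cast
    ring
  rw [h4, ← Real.log_pow]
  exact (Real.log_le_iff_le_exp (pow_pos (E.q_pos v) k)).2 h3

/-- the parameters -/
noncomputable def al (frob : HeightOneSpectrum (𝓞 K) → G) (χ : G →* ℂˣ)
    (v : {v : HeightOneSpectrum (𝓞 K) // v ∉ S}) (_ : Fin 1) : ℂ :=
  ((χ (frob v.1) : ℂˣ) : ℂ)

variable [Finite G]

theorem norm_chi (χ : G →* ℂˣ) (g : G) : ‖((χ g : ℂˣ) : ℂ)‖ = 1 := by
  refine Complex.norm_eq_one_of_pow_eq_one (n := Nat.card G) ?_ Nat.card_pos.ne'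
  rw [← Units.val_pow_eq_pow_val, ← map_pow, pow_card_eq_one', map_one, Units.val_one]

theorem xd (χ : G →* ℂˣ) : XD (0 : ℝ) (qS S) (al (S := S) frob χ) where
  two_le := fun v => two_le_qv v.1
  sum := fun σ hσ => qS_sum hσ
  norm_le := fun v j => by
    unfold al
    rw [norm_chi, zero_div, Real.rpow_zero]

theorem coeff_elt (f : G → ℂ) (g : G) : (elt f).coeff g = f g := rfl

theorem ev_eq (χ : G →* ℂˣ) : ev χ = Pool.Agent.R409.RJ.ev χ := rfl

theorem ev_gexp (χ : G →* ℂˣ) (x : MonoidAlgebra ℂ G) : ev χ (gexp x) = Complex.exp (ev χ x) :=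
  Pool.Agent.R409.RJ.ev_gexp χ x

/-- the character sum in terms of the element `N(X)` -/
theorem char_sum (χ : G →* ℂˣ) (γ θ T : ℝ) :
    (∑ᶠ x ∈ PS S θ T, pterm (qS S) (shx s₀ (qS S) (al frob χ)) γ T x.1 x.2) =
      ev χ⁻¹ (nEl S frob s₀ γ θ T) := by
  classical
  have : Fintype G := Fintype.ofFinite G
  have hterm : ∀ x : {v : HeightOneSpectrum (𝓞 K) // v ∉ S} × ℕ,
      pterm (qS S) (shx s₀ (qS S) (al frob χ)) γ T x.1 x.2 =
        ((χ (frob x.1.1 ^ x.2) : ℂˣ) : ℂ) *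
          (weight γ (x.2 * Real.log (Ideal.absNorm x.1.1.asIdeal) / T) *
            ((Ideal.absNorm x.1.1.asIdeal : ℂ) ^ (-s₀)) ^ x.2 / x.2) := by
    intro x
    unfold pterm shx al
    rw [weight_eq]
    unfold Pool.Agent.W187.S2.kk qS qv
    simp only [Finset.univ_unique, Finset.sum_singleton, map_pow, Units.val_pow_eq_pow_val,
      mul_pow]
    push_cast
    ring
  simp only [hterm]
  set Z := (PS_finite (S := S) θ T).toFinset with hZ
  have hZm : ∀ x, x ∈ Z ↔ x ∈ PS S θ T := fun x => Set.Finite.mem_toFinset _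
  have hev : ev χ⁻¹ (nEl S frob s₀ γ θ T) =
      ∑ σ : G, ((χ σ : ℂˣ) : ℂ) * count S frob s₀ γ θ T σ := by
    rw [ev_eq, Pool.Agent.R409.RJ.ev_apply, ← Equiv.sum_comp (Equiv.inv G)]
    refine Finset.sum_congr rfl fun σ _ => ?_
    unfold nEl
    rw [coeff_elt, Equiv.inv_apply, inv_inv, MonoidHom.inv_apply, map_inv, inv_inv, mul_comm]
  rw [hev]
  have hcls : ∀ σ : G, count S frob s₀ γ θ T σ =
      ∑ x ∈ Z, if frob x.1.1 ^ x.2 = σ then
        weight γ (x.2 * Real.log (Ideal.absNorm x.1.1.asIdeal) / T) *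
          ((Ideal.absNorm x.1.1.asIdeal : ℂ) ^ (-s₀)) ^ x.2 / x.2 else 0 := by
    intro σ
    unfold count
    rw [← Finset.sum_filter]
    refine finsum_mem_eq_sum_of_inter_support_eq _ ?_
    ext x
    simp only [Set.mem_inter_iff, Finset.coe_filter, Set.mem_ofPred_eq, hZm]
    unfold PS qS qv
    simp only [Set.mem_ofPred_eq]
    tauto
  simp only [hcls, Finset.mul_sum]
  rw [Finset.sum_comm]
  have hl : (∑ᶠ x ∈ PS S θ T, ((χ (frob x.1.1 ^ x.2) : ℂˣ) : ℂ) *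
      (weight γ (x.2 * Real.log (Ideal.absNorm x.1.1.asIdeal) / T) *
        ((Ideal.absNorm x.1.1.asIdeal : ℂ) ^ (-s₀)) ^ x.2 / x.2)) =
      ∑ x ∈ Z, ((χ (frob x.1.1 ^ x.2) : ℂˣ) : ℂ) *
        (weight γ (x.2 * Real.log (Ideal.absNorm x.1.1.asIdeal) / T) *
          ((Ideal.absNorm x.1.1.asIdeal : ℂ) ^ (-s₀)) ^ x.2 / x.2) := by
    refine finsum_mem_eq_sum_of_inter_support_eq _ ?_
    ext x
    simp only [Set.mem_inter_iff, Finset.mem_coe, hZm]
  rw [hl]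
  refine Finset.sum_congr rfl fun x _ => ?_
  simp

/-- the law for a character -/
theorem law_char {χ : G →* ℂˣ} {F : ℂ → ℂ} (hF : IsContinuation S frob s₀ χ F) :
    ∃ (m : ℤ) (r₀ : ℂ), meromorphicOrderAt F s₀ = m ∧
      Complex.exp r₀ = meromorphicTrailingCoeffAt F s₀ ∧
      ∀ γ θ : ℝ, Real.pi / 2 < γ → 1 - s₀.re < θ → 0 < θ →
        Law (fun T => ev χ⁻¹ (nEl S frob s₀ γ θ T)) m r₀ (lam γ) := by
  obtain ⟨m, r₀, -, hm, hr, hlaw⟩ := (xd (S := S) (frob := frob) χ).law_at (F := F) s₀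
    (fun x h0 h1 => hF.1 x h0 (by linarith)) (fun s hs => by
      rw [hF.2 s (by linarith)]
      unfold LFun qS qv al
      refine tprod_congr fun v => ?_
      rw [Finset.univ_unique, Finset.prod_singleton]
      push_cast
      rfl)
  refine ⟨m, r₀, hm, hr, fun γ θ hγ hθ hθ0 => ?_⟩
  have h1 := hlaw γ θ hγ (by linarith) hθ0
  have h2 : (fun T : ℝ => ev χ⁻¹ (nEl S frob s₀ γ θ T)) =
      fun T => ∑ᶠ x ∈ {x : {v : HeightOneSpectrum (𝓞 K) // v ∉ S} × ℕ | 1 ≤ x.2 ∧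
        qS S x.1 ^ x.2 ≤ Real.exp (Real.exp (θ * T))},
        pterm (qS S) (shx s₀ (qS S) (al frob χ)) γ T x.1 x.2 := by
    funext T
    exact (char_sum χ γ θ T).symm
  rw [h2, lam_eq]
  exact h1

end bridge

open Pool.Agent.R409.RC in
/-- **The equivariant leading term as a limit in `ℂ[G]`.** Let `K` be a number field, `G` a finite
abelian group, `S` a finite set of primes of `K`, `frob` a function from the primes of `K` to `G` (for
an abelian extension with group `G`: the Frobenius elements), `s₀ ∈ ℂ` (for Q1: `1 - k`), and for the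
characters `χ` of `G` let `F χ` be a continuation of `L_S(χ, s)` which is meromorphic on the horizontal
segment from `s₀` to `Re s = 1`. Then there are `R, ℓ, L* ∈ ℂ[G]` such that

* `χ(R)` is the order and `χ(L*)` the leading coefficient of `F χ⁻¹` at `s₀`, and `exp ℓ = L*`;
* `N(X) = ℓ - (log X - Λ_γ) R + O(1/X)` and `exp (N(X) + (log X - Λ_γ) R) = L* + O(1/X)`, coefficient by
  coefficient, for all `γ > π/2` and `κ > 1 - Re s₀`, `κ > 0`;
* for all `A ∈ ℂ[G]`: `A ∈ L* ℚ[G]` if and only if the coefficients of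
  `A exp (-N(X) - (log X - Λ_γ) R)` tend to rational numbers along one sequence `X → ∞`, for one choice
  of `γ`, `κ`. -/
theorem result (K : Type) [Field K] [NumberField K] (G : Type) [CommGroup G] [Finite G]
    (S : Finset (HeightOneSpectrum (𝓞 K))) (frob : HeightOneSpectrum (𝓞 K) → G) (s₀ : ℂ)
    (F : (G →* ℂˣ) → ℂ → ℂ) (_ : ∀ χ, IsContinuation S frob s₀ χ (F χ)) :
    ∃ R l Lstar : MonoidAlgebra ℂ G,
      (∀ χ : G →* ℂˣ, (∃ m : ℤ, meromorphicOrderAt (F χ⁻¹) s₀ = m ∧ ev χ R = m) ∧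
        ev χ Lstar = meromorphicTrailingCoeffAt (F χ⁻¹) s₀) ∧
      gexp l = Lstar ∧
      (∀ γ κ : ℝ, Real.pi / 2 < γ → 1 - s₀.re < κ → 0 < κ → ∀ g,
        ((fun X : ℝ => (nEl S frob s₀ γ κ X).coeff g -
          (l - ((Real.log X : ℂ) - lam γ) • R).coeff g) =O[atTop] fun X : ℝ => X⁻¹) ∧
        ((fun X : ℝ => (gexp (nEl S frob s₀ γ κ X + ((Real.log X : ℂ) - lam γ) • R)).coeff g -
          Lstar.coeff g) =O[atTop] fun X : ℝ => X⁻¹)) ∧
      ∀ A : MonoidAlgebra ℂ G,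
        ((∃ q : MonoidAlgebra ℂ G, IsRational q ∧ A = Lstar * q) ↔
          ∃ (γ κ : ℝ) (X : ℕ → ℝ), Real.pi / 2 < γ ∧ 1 - s₀.re < κ ∧ 0 < κ ∧
            Tendsto X atTop atTop ∧ ∀ g, ∃ x : ℚ, Tendsto (fun n =>
              (A * gexp (-nEl S frob s₀ γ κ (X n) -
                ((Real.log (X n) : ℂ) - lam γ) • R)).coeff g) atTop (𝓝 (x : ℂ))) := by
  classical
  rename_i hF
  have : Fintype G := Fintype.ofFinite G
  have : Fintype (G →* ℂˣ) := Fintype.ofFinite _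
  choose m r₀ hm hr₀ hlaw using fun χ => law_char (hF χ)
  have hpi : Real.pi / 2 < Real.pi := by linarith [Real.pi_pos]
  obtain ⟨R, hR⟩ := Pool.Agent.R409.RJ.exists_ev (G := G) fun χ => (m χ⁻¹ : ℂ)
  obtain ⟨l, hl⟩ := Pool.Agent.R409.RJ.exists_ev (G := G) fun χ => r₀ χ⁻¹
  have hR' : ∀ χ : G →* ℂˣ, ev χ R = m χ⁻¹ := hR
  have hl' : ∀ χ : G →* ℂˣ, ev χ l = r₀ χ⁻¹ := hl
  -- the values
  have hval : ∀ γ κ : ℝ, Real.pi / 2 < γ → 1 - s₀.re < κ → 0 < κ → ∀ χ : G →* ℂˣ,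
      ∃ e : ℝ → ℂ, e =O[atTop] (fun X : ℝ => X⁻¹) ∧ ∀ X : ℝ,
        ev χ (nEl S frob s₀ γ κ X) = ev χ (l - ((Real.log X : ℂ) - lam γ) • R) + e X := by
    intro γ κ hγ hκ hκ0 χ
    obtain ⟨C, T₀, hC, hT₀, hT⟩ := hlaw χ⁻¹ γ κ hγ hκ hκ0
    have h5 : (χ⁻¹)⁻¹ = χ := inv_inv χ
    rw [h5] at hT
    refine ⟨fun X => ev χ (nEl S frob s₀ γ κ X) -
      (r₀ χ⁻¹ - m χ⁻¹ * (Real.log X - lam γ)), ?_, fun X => ?_⟩
    · refine IsBigO.of_bound C ?_
      filter_upwards [eventually_ge_atTop T₀] with X hX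
      have hX0 : 0 < X := by linarith
      rw [norm_inv, Real.norm_eq_abs, abs_of_pos hX0, ← div_eq_mul_inv]
      exact hT X hX
    · rw [map_sub, map_smul, hR', hl', smul_eq_mul]
      ring
  -- from values to coefficients
  have hco : ∀ {y z : ℝ → MonoidAlgebra ℂ G},
      (∀ χ : G →* ℂˣ, (fun X : ℝ => ev χ (y X) - ev χ (z X)) =O[atTop] fun X : ℝ => X⁻¹) →
      ∀ g, (fun X : ℝ => (y X).coeff g - (z X).coeff g) =O[atTop] fun X : ℝ => X⁻¹ := by
    intro y z h g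
    have h3 : (fun X : ℝ => (Nat.card G : ℂ)⁻¹ * ∑ χ : G →* ℂˣ, ((χ g : ℂˣ) : ℂ)⁻¹ *
        (ev χ (y X) - ev χ (z X))) =O[atTop] fun X : ℝ => X⁻¹ :=
      IsBigO.const_mul_left (IsBigO.fun_sum fun χ _ => IsBigO.const_mul_left (h χ) _) _
    refine h3.congr_left fun X => ?_
    rw [Pool.Agent.R409.RJ.coeff_eq, Pool.Agent.R409.RJ.coeff_eq (z X) g, ← mul_sub,
      ← Finset.sum_sub_distrib]
    congr 1
    exact Finset.sum_congr rfl fun χ _ => by
      rw [mul_sub]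
      rfl
  refine ⟨R, l, gexp l, fun χ => ⟨⟨m χ⁻¹, hm χ⁻¹, hR' χ⟩, ?_⟩, rfl, ?_, ?_⟩
  · rw [ev_gexp, hl', hr₀]
  · intro γ κ hγ hκ hκ0 g
    constructor
    · refine hco (y := fun X => nEl S frob s₀ γ κ X)
        (z := fun X => l - ((Real.log X : ℂ) - lam γ) • R) (fun χ => ?_) g
      obtain ⟨e, he, h1⟩ := hval γ κ hγ hκ hκ0 χ
      refine he.congr_left fun X => ?_
      rw [h1 X]
      ring
    · refine hco (y := fun X => gexp (nEl S frob s₀ γ κ X + ((Real.log X : ℂ) - lam γ) • R))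
        (z := fun _ => gexp l) (fun χ => ?_) g
      obtain ⟨e, he, h1⟩ := hval γ κ hγ hκ hκ0 χ
      have h2 := (Pool.Agent.R409.RJ.exp_sub_one he).const_mul_left (Complex.exp (ev χ l))
      refine h2.congr_left fun X => ?_
      rw [ev_gexp, ev_gexp, map_add, h1 X, map_sub]
      have h3 : ev χ l - ev χ (((Real.log X : ℂ) - lam γ) • R) + e X +
          ev χ (((Real.log X : ℂ) - lam γ) • R) = ev χ l + e X := by ring
      rw [h3, Complex.exp_add]
      ring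
  · intro A
    -- the limit of the products
    have hinv : gexp l * gexp (-l) = 1 := by
      refine Pool.Agent.R409.RJ.ev_inj fun χ => ?_
      rw [← ev_eq, map_mul, ev_gexp, ev_gexp, map_one, map_neg, ← Complex.exp_add, add_neg_cancel,
        Complex.exp_zero]
    have hlim : ∀ γ κ : ℝ, Real.pi / 2 < γ → 1 - s₀.re < κ → 0 < κ → ∀ g,
        Tendsto (fun X : ℝ => (A * gexp (-nEl S frob s₀ γ κ X -
          ((Real.log X : ℂ) - lam γ) • R)).coeff g) atTop (𝓝 ((A * gexp (-l)).coeff g)) := by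
      intro γ κ hγ hκ hκ0 g
      have h1 := hco (y := fun X => A * gexp (-nEl S frob s₀ γ κ X -
        ((Real.log X : ℂ) - lam γ) • R)) (z := fun _ => A * gexp (-l)) (fun χ => by
          obtain ⟨e, he, h1⟩ := hval γ κ hγ hκ hκ0 χ
          have h2 := (Pool.Agent.R409.RJ.exp_sub_one he.neg_left).const_mul_left
            (ev χ A * Complex.exp (-ev χ l))
          refine h2.congr_left fun X => ?_
          rw [map_mul, map_mul, ev_gexp, ev_gexp, map_sub, map_neg, map_neg, h1 X, map_sub]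
          have h3 : -(ev χ l - ev χ (((Real.log X : ℂ) - lam γ) • R) + e X) -
              ev χ (((Real.log X : ℂ) - lam γ) • R) = -ev χ l + -e X := by ring
          rw [h3, Complex.exp_add]
          ring) g
      have h2 := (h1.trans_tendsto tendsto_inv_atTop_zero).add_const ((A * gexp (-l)).coeff g)
      simpa using h2
    constructor
    · rintro ⟨q, hq, rfl⟩
      refine ⟨Real.pi, max (1 - s₀.re) 0 + 1, fun n => n, hpi,
        by linarith [le_max_left (1 - s₀.re) 0], by linarith [le_max_right (1 - s₀.re) 0],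
        tendsto_natCast_atTop_atTop, fun g => ?_⟩
      obtain ⟨x, hx⟩ := hq g
      refine ⟨x, ?_⟩
      have h1 := (hlim Real.pi (max (1 - s₀.re) 0 + 1) hpi
        (by linarith [le_max_left (1 - s₀.re) 0]) (by linarith [le_max_right (1 - s₀.re) 0])
        g).comp tendsto_natCast_atTop_atTop
      have h2 : gexp l * q * gexp (-l) = q := by
        rw [mul_right_comm, hinv, one_mul]
      rw [h2, hx] at h1
      exact h1
    · rintro ⟨γ, κ, X, hγ, hκ, hκ0, hX, hlim'⟩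
      refine ⟨A * gexp (-l), fun g => ?_, ?_⟩
      · obtain ⟨x, hx⟩ := hlim' g
        exact ⟨x, tendsto_nhds_unique ((hlim γ κ hγ hκ hκ0 g).comp hX) hx⟩
      · rw [mul_left_comm, hinv, mul_one]

end Pool.Agent.Results.MP_a93ca1_nt.LeadingTermLimit
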