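import Pool.Agent.R493.ST.H3

set_option autoImplicit false
set_option linter.all false

namespace Pool.Agent.Results.MP_a93ca1_nt.PrescribedParity

open Pool.Agent.R493.SD Pool.Agent.R493.ST

/-- The invariants to be compared (for a fixed `k > 1`): for each `σ` in `Aut(ℂ)` an additive
function `u σ` of virtual characters of the absolute Galois group of `ℚ` with values in `ℂˣ`. -/
structure RegulatorQuotient where
  u : (ℂ ≃+* ℂ) → R ℚ →+ Additive ℂˣ

/-- the equivariant Beilinson conjecture for the character `χ` of `K` -/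
def Beilinson (B : RegulatorQuotient) (K : SF ℚ) (χ : Chr K) : Prop :=
  ∀ (σ : ℂ ≃+* ℂ) (r : R ℚ), (r : AG ℚ → ℂ) = Ind K χ.fn → B.u σ r = 0

/-- **Main theorem.** Let `δ = 1` or `δ = -1` and `N` even. If the conjecture holds for all number
fields `F` and all characters `l` of `F`, `l ^ N = 1`, with `l c = δ` for all complex conjugations
`c` fixing `F`, then it holds for all number fields and all their characters of exponent `N`. -/
theorem result (B : RegulatorQuotient) (N : ℕ) (hN : 2 ∣ N) (δ : ℂ) (hδ : δ = 1 ∨ δ = -1)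
    (hB : ∀ F : SF ℚ, IsNF F → ∀ l : Chr F, l.HasExp N →
      (∀ c, CC c → c ∈ F.fixingSubgroup → l.fn c = δ) → Beilinson B F l)
    (K : SF ℚ) (hK : IsNF K) (χ : Chr K) (hχ : χ.HasExp N) : Beilinson B K χ := by
  intro σ r hr
  have hS : spS δ N ≤ ((B.u σ).ker).map (R ℚ).subtype := by
    refine vanish (B.u σ) ?_
    rintro h ⟨F, hF, l, hl, hX, rfl⟩
    exact ⟨AddSubgroup.subset_closure ⟨F, hF, l, rfl⟩, hB F hF l hl hX σ _ rfl⟩
  refine vanish' (B.u σ) r (hS ?_)
  rw [hr]
  exact mainS N hN K hK χ hχ δ hδ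

end Pool.Agent.Results.MP_a93ca1_nt.PrescribedParity
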