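import Pool.Agent.R493.ST.H3

set_option autoImplicit false
set_option linter.all false

namespace Pool.Agent.Results.MP_a93ca1_nt.TotallyComplexFields

open Pool.Agent.R493.SD Pool.Agent.R493.ST

/-- The invariants to be compared (for a fixed `k > 1`): for each `σ` in `Aut(ℂ)` an additive
function `u σ` of virtual characters of the absolute Galois group of `ℚ` with values in `ℂˣ`,
trivial on the characters induced from trivial characters. -/
structure RegulatorQuotient where
  u : (ℂ ≃+* ℂ) → R ℚ →+ Additive ℂˣ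
  borel : ∀ (σ : ℂ ≃+* ℂ) (F : SF ℚ), IsNF F →
    ∀ r : R ℚ, (r : AG ℚ → ℂ) = Ind F (Chr.one F).fn → u σ r = 0

/-- the equivariant Beilinson conjecture for the character `χ` of `K` -/
def Beilinson (B : RegulatorQuotient) (K : SF ℚ) (χ : Chr K) : Prop :=
  ∀ (σ : ℂ ≃+* ℂ) (r : R ℚ), (r : AG ℚ → ℂ) = Ind K χ.fn → B.u σ r = 0

/-- the conjecture for the characters of exponent `N` of totally complex fields -/
def ComplexCase (B : RegulatorQuotient) (N : ℕ) : Prop :=
  ∀ F : SF ℚ, IsNF F → TC F → ∀ l : Chr F, l.HasExp N → Beilinson B F l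

/-- the conjecture for the characters of exponent `N`, of `2`-power order and trivial on all
complex conjugations, of all number fields -/
def EvenTwoPowerCase (B : RegulatorQuotient) (N : ℕ) : Prop :=
  ∀ F : SF ℚ, IsNF F → ∀ l : Chr F, l.HasExp N → (∃ j : ℕ, l.HasExp (2 ^ j)) →
    (∀ c, CC c → c ∈ F.fixingSubgroup → l.fn c = 1) → Beilinson B F l

/-- the conjecture for `χ` up to sign -/
def UpToSign (B : RegulatorQuotient) (K : SF ℚ) (χ : Chr K) : Prop :=
  ∀ (σ : ℂ ≃+* ℂ) (r : R ℚ), (r : AG ℚ → ℂ) = Ind K χ.fn →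
    Additive.toMul (B.u σ r) = 1 ∨ Additive.toMul (B.u σ r) = -1

/-- the invariants of `χ` and of its quadratic twists `χα` are inverse to each other -/
def TwistRelation (B : RegulatorQuotient) (K : SF ℚ) (χ : Chr K) : Prop :=
  ∀ α : Chr K, α.HasExp 2 → ∀ (σ : ℂ ≃+* ℂ) (r r' : R ℚ), (r : AG ℚ → ℂ) = Ind K χ.fn →
    (r' : AG ℚ → ℂ) = Ind K (χ.fn * α.fn) → B.u σ r + B.u σ r' = 0

theorem unit_sq {x : ℂˣ} (h : x * x = 1) : x = 1 ∨ x = -1 := by
  have h1 : (x : ℂ) * (x : ℂ) = 1 := by
    rw [← Units.val_mul, h]; rfl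
  rcases mul_self_eq_one_iff.mp h1 with h2 | h2
  · left; ext; exact h2
  · right; ext; rw [h2]; rfl

/-- **Main theorem.** Suppose that the conjecture holds for all totally complex number fields and
all their characters of exponent dividing the even number `N`. Then for every number field `K` and
every character `χ` of `K` with `χ ^ N = 1`: the product of the invariants of `χ` and `χα` is
trivial for quadratic `α`; the conjecture holds for `χ` up to sign; it holds if `4` does not divide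
the order of `χ`; and it holds if it holds for the characters of `2`-power order which are trivial
on all complex conjugations. -/
theorem result (B : RegulatorQuotient) (N : ℕ) (hN0 : 0 < N) (hN : 2 ∣ N)
    (hB : ComplexCase B N) (K : SF ℚ) (hK : IsNF K) (χ : Chr K) (hχ : χ.HasExp N) :
    TwistRelation B K χ ∧ UpToSign B K χ ∧
    (∀ n : ℕ, Odd n → χ.HasExp (2 * n) → Beilinson B K χ) ∧
    (EvenTwoPowerCase B N → Beilinson B K χ) := by
  have hC : ∀ σ, spC N ≤ ((B.u σ).ker).map (R ℚ).subtype := by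
    intro σ
    refine vanish (B.u σ) ?_
    rintro h ⟨F, hF, htc, l, hl, rfl⟩
    exact ⟨AddSubgroup.subset_closure ⟨F, hF, l, rfl⟩, hB F hF htc l hl σ _ rfl⟩
  have hP : ∀ σ, spP ≤ ((B.u σ).ker).map (R ℚ).subtype := by
    intro σ
    refine vanish (B.u σ) ?_
    rintro h ⟨F, hF, rfl⟩
    exact ⟨AddSubgroup.subset_closure ⟨F, hF, Chr.one F, rfl⟩, B.borel σ F hF _ rfl⟩
  obtain ⟨h1, h2, h3, -⟩ := main N hN0 hN K hK χ hχ
  have key1 : ∀ (α : Chr K), α.HasExp 2 → ∀ (σ : ℂ ≃+* ℂ) (r r' : R ℚ),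
      (r : AG ℚ → ℂ) = Ind K χ.fn → (r' : AG ℚ → ℂ) = Ind K (χ.fn * α.fn) →
      B.u σ r + B.u σ r' = 0 := by
    intro α hα σ r r' hr hr'
    rw [← map_add]
    refine vanish' (B.u σ) (r + r') (sup_le (hC σ) (hP σ) ?_)
    show (r : AG ℚ → ℂ) + (r' : AG ℚ → ℂ) ∈ _
    rw [hr, hr']
    exact h1 α hα
  refine ⟨key1, ?_, ?_, ?_⟩
  · intro σ r hr
    have h4 := key1 (Chr.one K) (one_exp K 2) σ r r hr (by rw [hr, mul_one_fn])
    have h5 : Additive.toMul (B.u σ r) * Additive.toMul (B.u σ r) = 1 := by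
      rw [← toMul_add, h4, toMul_zero]
    exact unit_sq h5
  · intro n hn h σ r hr
    refine vanish' (B.u σ) r (sup_le (hC σ) (hP σ) ?_)
    rw [hr]
    exact h3 n hn h
  · intro hE σ r hr
    have hE' : spE N ≤ ((B.u σ).ker).map (R ℚ).subtype := by
      refine vanish (B.u σ) ?_
      rintro h ⟨F, hF, l, hl, hj, hc, rfl⟩
      exact ⟨AddSubgroup.subset_closure ⟨F, hF, l, rfl⟩, hE F hF l hl hj hc σ _ rfl⟩
    refine vanish' (B.u σ) r (sup_le (hC σ) hE' ?_)
    rw [hr]
    exact h2

end Pool.Agent.Results.MP_a93ca1_nt.TotallyComplexFields
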